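import Pool.Agent.H62.BC.Targets

/-! # A matrix unit as a power of a nilpotent matrix (row A1) -/

open Pool.Agent.H62.BC

namespace Pool.Agent.H72.BC

universe u

/-- A permutation with two prescribed values. -/
theorem exPerm {q : ℕ} (u v a b : Fin q) (huv : u ≠ v) (hab : a ≠ b) :
    ∃ σ : Equiv.Perm (Fin q), σ u = b ∧ σ v = a := by
  have h1 : (Equiv.swap u b) v ≠ b := by
    intro h
    have h2 : (Equiv.swap u b) u = b := Equiv.swap_apply_left u b
    exact huv ((Equiv.swap u b).injective (h2.trans h.symm))
  refine ⟨(Equiv.swap u b).trans (Equiv.swap ((Equiv.swap u b) v) a), ?_, ?_⟩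
  · rw [Equiv.trans_apply, Equiv.swap_apply_left]
    exact Equiv.swap_apply_of_ne_of_ne h1.symm hab.symm
  · rw [Equiv.trans_apply, Equiv.swap_apply_left]

/-- The powers of a path matrix. -/
theorem powPath {R : Type u} [Ring R] {q j : ℕ} (c : ℕ → Fin q)
    (hc : ∀ i k, i ≤ j → k ≤ j → c i = c k → i = k) (w : ℕ → R)
    (hw : ∀ k, 1 ≤ k → w k = 1) (r : ℕ) :
    (∑ i ∈ Finset.range j, Matrix.single (c (i + 1)) (c i) (w i)) ^ (r + 1)
      = ∑ i ∈ Finset.range (j - r), Matrix.single (c (i + r + 1)) (c i) (w i) := by
  induction r with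
  | zero => simp
  | succ r ih =>
    rw [pow_succ', ih, Finset.sum_mul_sum, Finset.sum_comm]
    have h1 : ∀ i ∈ Finset.range (j - r),
        (∑ k ∈ Finset.range j, Matrix.single (c (k + 1)) (c k) (w k) *
          Matrix.single (c (i + r + 1)) (c i) (w i))
          = if i + r + 1 < j then Matrix.single (c (i + (r + 1) + 1)) (c i) (w i) else 0 := by
      intro i hi
      rw [Finset.mem_range] at hi
      split_ifs with h
      · rw [Finset.sum_eq_single (i + r + 1)]
        · rw [Matrix.single_mul_single_same, hw (i + r + 1) (by omega), one_mul]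
          rfl
        · intro k hk hne
          rw [Finset.mem_range] at hk
          apply Matrix.single_mul_single_of_ne
          intro he
          exact hne (hc k (i + r + 1) hk.le h.le he)
        · intro hn
          exact absurd (Finset.mem_range.2 h) hn
      · apply Finset.sum_eq_zero
        intro k hk
        rw [Finset.mem_range] at hk
        apply Matrix.single_mul_single_of_ne
        intro he
        have := hc k (i + r + 1) hk.le (by omega) he
        omega
    rw [Finset.sum_congr rfl h1, Finset.sum_ite, Finset.sum_const_zero, add_zero]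
    apply Finset.sum_congr
    · ext i
      simp only [Finset.mem_filter, Finset.mem_range]
      omega
    · intro i _
      rfl

theorem pf_A1 : T_A1.{u} := by
  intro R _ q j a b x hab hj hjq
  obtain ⟨σ, h0, hj'⟩ := exPerm (q := q) ⟨0, by omega⟩ ⟨j, by omega⟩ a b
    (by intro h; have := congrArg Fin.val h; simp at this; omega) hab
  let c : ℕ → Fin q := fun i => if h : i < q then σ ⟨i, h⟩ else b
  have hc : ∀ i k, i ≤ j → k ≤ j → c i = c k → i = k := by
    intro i k hi hk he
    have hi' : i < q := by omega
    have hk' : k < q := by omega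
    simp only [c, dif_pos hi', dif_pos hk'] at he
    have := σ.injective he
    exact congrArg Fin.val this
  have hc0 : c 0 = b := by
    simp only [c]
    rw [dif_pos (by omega), h0]
  have hcj : c j = a := by
    simp only [c]
    rw [dif_pos (by omega), hj']
  let w : ℕ → R := fun i => if i = 0 then x else 1
  have hw : ∀ k, 1 ≤ k → w k = 1 := by
    intro k hk
    simp only [w]
    rw [if_neg (by omega)]
  refine ⟨∑ i ∈ Finset.range j, Matrix.single (c (i + 1)) (c i) (w i), ⟨j + 1, ?_⟩, ?_⟩
  · rw [powPath c hc w hw j]
    simp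
  · obtain ⟨m, rfl⟩ : ∃ m, j = m + 1 := ⟨j - 1, by omega⟩
    rw [powPath c hc w hw m]
    have : m + 1 - m = 1 := by omega
    rw [this, Finset.sum_range_one]
    simp only [zero_add]
    rw [hc0, hcj]
    simp [w]

end Pool.Agent.H72.BC
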